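import Mathlib

/-!
# The support of the variance-profile deterministic equivalent is a closed disk

Problem MP_44eb1e_pr, Q1.  For every `n ≥ 1` and every irreducible nonnegative `σ` for which the
deterministic equivalent `μ` is defined, the support of `μ` is the closed disk of radius
`√ρ(V)`, `V = (1/n) (σ_ij ^ 2)`; in particular it is connected.

The proof: for two strictly positive solutions of the Master Equations at `t = s²` and `t₁ = s₁²`,
concavity of the logarithm together with the stationarity of the weights `q̃_i (Vᵀ q)_i` for the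
stochastic matrix `D_i V_ij q̃_j / q̃_i` gives an inequality between the two families
`D_i = 1 / (t + (V q̃)_i (Vᵀ q)_i)`; adding the two symmetric inequalities shows that
`∑ t D_i` is strictly increasing in `t`.
-/

namespace Run7.h800.VP

open MeasureTheory Matrix

/-- The matrix `V = (1/n) (σ_ij ^ 2)`. -/
noncomputable def prof {n : ℕ} (σ : Matrix (Fin n) (Fin n) ℝ) : Matrix (Fin n) (Fin n) ℝ :=
  fun i j => (1 / (n : ℝ)) * (σ i j) ^ 2

/-- The spectral radius of a real square matrix (maximal modulus of the complex eigenvalues). -/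
noncomputable def specRad {n : ℕ} (V : Matrix (Fin n) (Fin n) ℝ) : ℝ :=
  (spectralRadius ℂ (V.map (fun x : ℝ => (x : ℂ)))).toReal

/-- The Master Equations at the parameter `s` for the pair of nonnegative vectors `(q, q')`
(`q'` is written `q̃` in the problem file). -/
def Master {n : ℕ} (V : Matrix (Fin n) (Fin n) ℝ) (s : ℝ) (q q' : Fin n → ℝ) : Prop :=
  (∀ i, 0 ≤ q i) ∧ (∀ i, 0 ≤ q' i) ∧
  (∀ i, q i = (Vᵀ *ᵥ q) i / (s ^ 2 + (V *ᵥ q') i * (Vᵀ *ᵥ q) i)) ∧
  (∀ i, q' i = (V *ᵥ q') i / (s ^ 2 + (V *ᵥ q') i * (Vᵀ *ᵥ q) i)) ∧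
  ∑ i, q i = ∑ i, q' i

/-- `(q s, q' s)` is the selected solution of the Master Equations for every `s > 0`:
it solves them, it is not the zero solution for `0 < s < √ρ(V)`, and it is the zero solution for
`s ≥ √ρ(V)`. -/
def IsSelected {n : ℕ} (V : Matrix (Fin n) (Fin n) ℝ) (q q' : ℝ → Fin n → ℝ) : Prop :=
  (∀ s : ℝ, 0 < s → Master V s (q s) (q' s)) ∧
  (∀ s : ℝ, 0 < s → s < √(specRad V) → ¬ (q s = 0 ∧ q' s = 0)) ∧
  (∀ s : ℝ, 0 < s → √(specRad V) ≤ s → q s = 0 ∧ q' s = 0)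

/-- `F(s) = 1 - (1/n) ⟨q(s), V q̃(s)⟩`. -/
noncomputable def cdf {n : ℕ} (V : Matrix (Fin n) (Fin n) ℝ) (q q' : ℝ → Fin n → ℝ) (s : ℝ) : ℝ :=
  1 - (1 / (n : ℝ)) * (q s ⬝ᵥ (V *ᵥ q' s))

/-- `μ` is the deterministic equivalent of the variance profile `σ`: a probability measure on
`ℂ`, invariant under all rotations about the origin, with `μ {|z| ≤ s} = F(s)` for all `s > 0`. -/
def IsDetEquiv {n : ℕ} (σ : Matrix (Fin n) (Fin n) ℝ) (μ : Measure ℂ) : Prop :=
  IsProbabilityMeasure μ ∧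
  (∀ w : ℂ, ‖w‖ = 1 → μ.map (fun z => w * z) = μ) ∧
  ∃ q q' : ℝ → Fin n → ℝ, IsSelected (prof σ) q q' ∧
    ∀ s : ℝ, 0 < s → μ.real {z : ℂ | ‖z‖ ≤ s} = cdf (prof σ) q q' s

/-! ### The inequality from concavity of the logarithm -/

lemma jensen_step {n : ℕ} {V : Matrix (Fin n) (Fin n) ℝ} (hV : ∀ i j, 0 ≤ V i j)
    {D D₁ x x₁ y : Fin n → ℝ} (hD : ∀ i, 0 < D i) (hD₁ : ∀ i, 0 < D₁ i)
    (hx : ∀ i, 0 < x i) (hx₁ : ∀ i, 0 < x₁ i) (hy : ∀ i, 0 < y i)
    (e1 : ∀ i, x i = D i * ∑ j, V i j * x j)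
    (e2 : ∀ i, x₁ i = D₁ i * ∑ j, V i j * x₁ j)
    (e3 : ∀ i, y i = D i * ∑ j, V j i * y j) :
    ∑ i, (x i * y i / D i) * (Real.log (D₁ i) - Real.log (D i)) ≤ 0 := by
  set r : Fin n → ℝ := fun i => x₁ i / x i with hr
  have hrpos : ∀ i, 0 < r i := fun i => div_pos (hx₁ i) (hx i)
  set P : Fin n → Fin n → ℝ := fun i j => D i * V i j * x j / x i with hP
  have hPnn : ∀ i j, 0 ≤ P i j := fun i j =>
    div_nonneg (mul_nonneg (mul_nonneg (hD i).le (hV i j)) (hx j).le) (hx i).le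
  have hPsum : ∀ i, ∑ j, P i j = 1 := by
    intro i
    have h1 : ∑ j, P i j = (D i * ∑ j, V i j * x j) / x i := by
      rw [Finset.mul_sum, Finset.sum_div]
      refine Finset.sum_congr rfl fun j _ => ?_
      simp only [hP]
      ring
    rw [h1, ← e1 i, div_self (hx i).ne']
  have hrel : ∀ i, r i = (D₁ i / D i) * ∑ j, P i j * r j := by
    intro i
    have h1 : ∑ j, P i j * r j = D i * (∑ j, V i j * x₁ j) / x i := by
      rw [Finset.mul_sum, Finset.sum_div]
      refine Finset.sum_congr rfl fun j _ => ?_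
      have h3 := (hx j).ne'
      have h4 := (hx i).ne'
      simp only [hP, hr]
      field_simp
    have h2 : r i = (D₁ i * ∑ j, V i j * x₁ j) / x i := by rw [← e2 i]
    rw [h1, h2]
    have h5 := (hD i).ne'
    field_simp
  have hlog : ∀ i, Real.log (D₁ i) - Real.log (D i) + ∑ j, P i j * Real.log (r j)
      ≤ Real.log (r i) := by
    intro i
    have hJ := strictConcaveOn_log_Ioi.concaveOn.le_map_sum (t := Finset.univ) (w := P i) (p := r)
      (fun j _ => hPnn i j) (hPsum i) (fun j _ => hrpos j)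
    simp only [smul_eq_mul] at hJ
    have hpos : 0 < ∑ j, P i j * r j := by
      have h3 := hrpos i
      rw [hrel i] at h3
      exact (pos_iff_pos_of_mul_pos h3).mp (div_pos (hD₁ i) (hD i))
    rw [hrel i, Real.log_mul (div_pos (hD₁ i) (hD i)).ne' hpos.ne',
      Real.log_div (hD₁ i).ne' (hD i).ne']
    linarith
  have hsum : ∑ i, (x i * y i / D i) *
      (Real.log (D₁ i) - Real.log (D i) + ∑ j, P i j * Real.log (r j))
      ≤ ∑ i, (x i * y i / D i) * Real.log (r i) :=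
    Finset.sum_le_sum fun i _ => mul_le_mul_of_nonneg_left (hlog i)
      (div_nonneg (mul_nonneg (hx i).le (hy i).le) (hD i).le)
  have hstat : ∑ i, (x i * y i / D i) * ∑ j, P i j * Real.log (r j)
      = ∑ j, (x j * y j / D j) * Real.log (r j) := by
    simp_rw [Finset.mul_sum]
    rw [Finset.sum_comm]
    refine Finset.sum_congr rfl fun j _ => ?_
    have hw : x j * y j / D j = (∑ i, V i j * y i) * x j := by
      have hDj := (hD j).ne'
      rw [div_eq_iff hDj]
      calc x j * y j = x j * (D j * ∑ i, V i j * y i) := by rw [← e3 j]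
        _ = (∑ i, V i j * y i) * x j * D j := by ring
    rw [hw, Finset.sum_mul, Finset.sum_mul]
    refine Finset.sum_congr rfl fun i _ => ?_
    have h3 := (hx i).ne'
    have h4 := (hD i).ne'
    simp only [hP]
    field_simp
  simp_rw [mul_add] at hsum
  rw [Finset.sum_add_distrib, hstat] at hsum
  linarith

/-- Strictly positive solutions of the two vector equations at `t = s²`. -/
def Sol {n : ℕ} (V : Matrix (Fin n) (Fin n) ℝ) (t : ℝ) (q q' : Fin n → ℝ) : Prop :=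
  (∀ i, 0 < q i) ∧ (∀ i, 0 < q' i) ∧
  (∀ i, q i = (Vᵀ *ᵥ q) i / (t + (V *ᵥ q') i * (Vᵀ *ᵥ q) i)) ∧
  (∀ i, q' i = (V *ᵥ q') i / (t + (V *ᵥ q') i * (Vᵀ *ᵥ q) i))

/-- The basic facts on a positive solution. -/
lemma sol_facts {n : ℕ} {V : Matrix (Fin n) (Fin n) ℝ} (hV : ∀ i j, 0 ≤ V i j) {t : ℝ}
    (ht : 0 < t) {q q' : Fin n → ℝ} (h : Sol V t q q') :
    ∃ D : Fin n → ℝ, (∀ i, 0 < D i) ∧ (∀ i, q' i = D i * ∑ j, V i j * q' j) ∧
      (∀ i, q i = D i * ∑ j, V j i * q j) ∧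
      (∀ i, q' i * q i / D i = 1 - t * D i) ∧ (∀ i, q i * (V *ᵥ q') i = 1 - t * D i) ∧
      (∀ i, 0 < 1 - t * D i) := by
  obtain ⟨hq, hq', e1, e2⟩ := h
  have ha : ∀ i, (Vᵀ *ᵥ q) i = ∑ j, V j i * q j := fun i => rfl
  have hb : ∀ i, (V *ᵥ q') i = ∑ j, V i j * q' j := fun i => rfl
  have han : ∀ i, 0 ≤ (Vᵀ *ᵥ q) i := fun i => by
    rw [ha]; exact Finset.sum_nonneg fun j _ => mul_nonneg (hV j i) (hq j).le
  have hbn : ∀ i, 0 ≤ (V *ᵥ q') i := fun i => by
    rw [hb]; exact Finset.sum_nonneg fun j _ => mul_nonneg (hV i j) (hq' j).le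
  have hden : ∀ i, 0 < t + (V *ᵥ q') i * (Vᵀ *ᵥ q) i := fun i =>
    add_pos_of_pos_of_nonneg ht (mul_nonneg (hbn i) (han i))
  have hap : ∀ i, 0 < (Vᵀ *ᵥ q) i := by
    intro i
    rcases (han i).lt_or_eq with h1 | h1
    · exact h1
    · exfalso
      have h2 := e1 i
      rw [← h1, zero_div] at h2
      exact (hq i).ne' h2
  have hbp : ∀ i, 0 < (V *ᵥ q') i := by
    intro i
    rcases (hbn i).lt_or_eq with h1 | h1
    · exact h1
    · exfalso
      have h2 := e2 i
      rw [← h1, zero_div] at h2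
      exact (hq' i).ne' h2
  refine ⟨fun i => 1 / (t + (V *ᵥ q') i * (Vᵀ *ᵥ q) i), fun i => one_div_pos.mpr (hden i),
    ?_, ?_, ?_, ?_, ?_⟩
  · intro i
    rw [← hb i, one_div_mul_eq_div]
    exact e2 i
  · intro i
    rw [← ha i, one_div_mul_eq_div]
    exact e1 i
  · intro i
    have hd := (hden i).ne'
    have h1 := e1 i
    have h2 := e2 i
    rw [h1, h2]
    field_simp
    ring
  · intro i
    have hd := (hden i).ne'
    show q i * (V *ᵥ q') i = 1 - t * (1 / (t + (V *ᵥ q') i * (Vᵀ *ᵥ q) i))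
    rw [e1 i, div_mul_eq_mul_div, mul_one_div, eq_sub_iff_add_eq, ← add_div,
      div_eq_one_iff_eq hd]
    ring
  · intro i
    have hd := (hden i).ne'
    have h3 : 1 - t * (1 / (t + (V *ᵥ q') i * (Vᵀ *ᵥ q) i)) =
        (V *ᵥ q') i * (Vᵀ *ᵥ q) i / (t + (V *ᵥ q') i * (Vᵀ *ᵥ q) i) := by
      field_simp
      ring
    show 0 < 1 - t * (1 / (t + (V *ᵥ q') i * (Vᵀ *ᵥ q) i))
    rw [h3]
    exact div_pos (mul_pos (hbp i) (hap i)) (hden i)

/-- Strict monotonicity. -/
lemma strict_mono {n : ℕ} (hn : 1 ≤ n) {V : Matrix (Fin n) (Fin n) ℝ} (hV : ∀ i j, 0 ≤ V i j)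
    {t t₁ : ℝ} (ht : 0 < t) (htt : t < t₁) {q q' p p' : Fin n → ℝ}
    (h : Sol V t q q') (h₁ : Sol V t₁ p p') :
    ∑ i, p i * (V *ᵥ p') i < ∑ i, q i * (V *ᵥ q') i := by
  have ht₁ : 0 < t₁ := ht.trans htt
  obtain ⟨D, hD, a1, a2, a3, a4, a5⟩ := sol_facts hV ht h
  obtain ⟨D₁, hD₁, b1, b2, b3, b4, b5⟩ := sol_facts hV ht₁ h₁
  have I := jensen_step hV hD hD₁ h.2.1 h₁.2.1 h.1 a1 b1 a2
  have II := jensen_step hV hD₁ hD h₁.2.1 h.2.1 h₁.1 b1 a1 b2
  simp_rw [a3] at I
  simp_rw [b3] at II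
  simp_rw [a4, b4]
  have hlt : Real.log t < Real.log t₁ := Real.log_lt_log ht htt
  have hu : ∀ i, Real.log (D i) = Real.log (t * D i) - Real.log t := fun i => by
    rw [Real.log_mul ht.ne' (hD i).ne']; ring
  have hu₁ : ∀ i, Real.log (D₁ i) = Real.log (t₁ * D₁ i) - Real.log t₁ := fun i => by
    rw [Real.log_mul ht₁.ne' (hD₁ i).ne']; ring
  by_contra hcon
  push Not at hcon
  set u : Fin n → ℝ := fun i => t * D i with hudef
  set u₁ : Fin n → ℝ := fun i => t₁ * D₁ i with hu₁def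
  have hup : ∀ i, 0 < u i := fun i => mul_pos ht (hD i)
  have hu₁p : ∀ i, 0 < u₁ i := fun i => mul_pos ht₁ (hD₁ i)
  have hterm : ∀ i, 0 ≤ (u₁ i - u i) * (Real.log (u₁ i) - Real.log (u i)) := by
    intro i
    rcases le_total (u i) (u₁ i) with h1 | h1
    · exact mul_nonneg (sub_nonneg.mpr h1) (sub_nonneg.mpr (Real.log_le_log (hup i) h1))
    · exact mul_nonneg_of_nonpos_of_nonpos (sub_nonpos.mpr h1)
        (sub_nonpos.mpr (Real.log_le_log (hu₁p i) h1))
  have hadd : ∑ i, (u₁ i - u i) * (Real.log (u₁ i) - Real.log (u i))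
      ≤ (Real.log t₁ - Real.log t) * ∑ i, (u₁ i - u i) := by
    have h3 : ∑ i, ((1 - u i) * (Real.log (D₁ i) - Real.log (D i)) +
        (1 - u₁ i) * (Real.log (D i) - Real.log (D₁ i))) ≤ 0 := by
      rw [Finset.sum_add_distrib]
      exact add_nonpos I II
    rw [Finset.mul_sum, ← sub_nonpos, ← Finset.sum_sub_distrib]
    refine le_trans (le_of_eq ?_) h3
    refine Finset.sum_congr rfl fun i _ => ?_
    rw [hu i, hu₁ i]
    simp only [hudef, hu₁def]
    ring
  have hdiff : ∑ i, (u₁ i - u i) ≤ 0 := by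
    rw [Finset.sum_sub_distrib] at hcon ⊢
    rw [Finset.sum_sub_distrib] at hcon
    linarith
  have hzero : ∑ i, (u₁ i - u i) * (Real.log (u₁ i) - Real.log (u i)) ≤ 0 :=
    hadd.trans (mul_nonpos_of_nonneg_of_nonpos (sub_pos.mpr hlt).le hdiff)
  have hzero' : ∑ i, (u₁ i - u i) * (Real.log (u₁ i) - Real.log (u i)) = 0 :=
    le_antisymm hzero (Finset.sum_nonneg fun i _ => hterm i)
  have heq : ∀ i, u₁ i = u i := by
    intro i
    have h4 := (Finset.sum_eq_zero_iff_of_nonneg (fun i _ => hterm i)).mp hzero' i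
      (Finset.mem_univ i)
    rcases mul_eq_zero.mp h4 with h5 | h5
    · linarith
    · exact Real.log_injOn_pos (hu₁p i) (hup i) (by linarith)
  have hII : 0 < ∑ i, (1 - u₁ i) * (Real.log (D i) - Real.log (D₁ i)) := by
    haveI : Nonempty (Fin n) := ⟨⟨0, hn⟩⟩
    refine Finset.sum_pos (fun i _ => mul_pos (b5 i) ?_) Finset.univ_nonempty
    rw [hu i, hu₁ i]
    have h6 : t₁ * D₁ i = t * D i := heq i
    rw [h6]
    linarith
  exact absurd hII (not_lt.mpr II)

/-- Nonnegative nonzero solutions are strictly positive when the digraph is strongly connected. -/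
lemma sol_pos {n : ℕ} {σ : Matrix (Fin n) (Fin n) ℝ} (hn : 1 ≤ n)
    (hirr : ∀ i j, Relation.ReflTransGen (fun k l => 0 < σ k l) i j) {s : ℝ} (hs : 0 < s)
    {q q' : Fin n → ℝ} (h : Master (prof σ) s q q') (hne : ¬ (q = 0 ∧ q' = 0)) :
    Sol (prof σ) (s ^ 2) q q' := by
  obtain ⟨hq, hq', e1, e2, e3⟩ := h
  have hn' : (0 : ℝ) < n := by exact_mod_cast hn
  have hV : ∀ i j, 0 ≤ prof σ i j := fun i j =>
    mul_nonneg (one_div_pos.mpr hn').le (sq_nonneg _)
  have hVp : ∀ i j, 0 < σ i j → 0 < prof σ i j := fun i j hij =>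
    mul_pos (one_div_pos.mpr hn') (pow_pos hij 2)
  have ha : ∀ i, ((prof σ)ᵀ *ᵥ q) i = ∑ j, prof σ j i * q j := fun i => rfl
  have hb : ∀ i, (prof σ *ᵥ q') i = ∑ j, prof σ i j * q' j := fun i => rfl
  have han : ∀ i, 0 ≤ ((prof σ)ᵀ *ᵥ q) i := fun i => by
    rw [ha]; exact Finset.sum_nonneg fun j _ => mul_nonneg (hV j i) (hq j)
  have hbn : ∀ i, 0 ≤ (prof σ *ᵥ q') i := fun i => by
    rw [hb]; exact Finset.sum_nonneg fun j _ => mul_nonneg (hV i j) (hq' j)
  have hden : ∀ i, 0 < s ^ 2 + (prof σ *ᵥ q') i * ((prof σ)ᵀ *ᵥ q) i := fun i =>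
    add_pos_of_pos_of_nonneg (pow_pos hs 2) (mul_nonneg (hbn i) (han i))
  -- both vectors are nonzero
  have hzq : (∑ i, q i = 0) → q = 0 := fun h0 => by
    funext i
    exact (Finset.sum_eq_zero_iff_of_nonneg (fun i _ => hq i)).mp h0 i (Finset.mem_univ i)
  have hzq' : (∑ i, q' i = 0) → q' = 0 := fun h0 => by
    funext i
    exact (Finset.sum_eq_zero_iff_of_nonneg (fun i _ => hq' i)).mp h0 i (Finset.mem_univ i)
  have hSq : ∑ i, q i ≠ 0 := fun h0 => hne ⟨hzq h0, hzq' (e3 ▸ h0)⟩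
  have hSq' : ∑ i, q' i ≠ 0 := fun h0 => hSq (e3.trans h0)
  obtain ⟨i₀, -, hi₀⟩ := Finset.exists_ne_zero_of_sum_ne_zero hSq
  obtain ⟨i₁, -, hi₁⟩ := Finset.exists_ne_zero_of_sum_ne_zero hSq'
  have hi₀p : 0 < q i₀ := lt_of_le_of_ne (hq i₀) (Ne.symm hi₀)
  have hi₁p : 0 < q' i₁ := lt_of_le_of_ne (hq' i₁) (Ne.symm hi₁)
  have step : ∀ j i, 0 < σ j i → 0 < q j → 0 < q i := by
    intro j i hji hj
    rw [e1 i]
    refine div_pos ?_ (hden i)
    rw [ha]
    exact Finset.sum_pos' (fun k _ => mul_nonneg (hV k i) (hq k))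
      ⟨j, Finset.mem_univ j, mul_pos (hVp j i hji) hj⟩
  have step' : ∀ i j, 0 < σ i j → 0 < q' j → 0 < q' i := by
    intro i j hij hj
    rw [e2 i]
    refine div_pos ?_ (hden i)
    rw [hb]
    exact Finset.sum_pos' (fun k _ => mul_nonneg (hV i k) (hq' k))
      ⟨j, Finset.mem_univ j, mul_pos (hVp i j hij) hj⟩
  refine ⟨?_, ?_, e1, e2⟩
  · intro i
    have hp := hirr i₀ i
    induction hp with
    | refl => exact hi₀p
    | tail _ hbc ih => exact step _ _ hbc ih
  · intro i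
    have hp := hirr i i₁
    induction hp using Relation.ReflTransGen.head_induction_on with
    | refl => exact hi₁p
    | head hab _ ih => exact step' _ _ hab ih

/-- The support of a rotation invariant measure is rotation invariant. -/
lemma support_rot {μ : Measure ℂ} (hrot : ∀ w : ℂ, ‖w‖ = 1 → μ.map (fun z => w * z) = μ)
    {w z : ℂ} (hw : ‖w‖ = 1) (hz : z ∈ μ.support) : w * z ∈ μ.support := by
  rw [Measure.mem_support_iff_forall] at hz ⊢
  intro U hU
  have hc : Continuous (fun z : ℂ => w * z) := continuous_const.mul continuous_id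
  have h1 : (fun z : ℂ => w * z) ⁻¹' U ∈ nhds z := hc.continuousAt.preimage_mem_nhds hU
  have h2 := hz _ h1
  have h3 : μ ((fun z : ℂ => w * z) ⁻¹' U) ≤ μ.map (fun z : ℂ => w * z) U :=
    Measure.le_map_apply hc.measurable.aemeasurable U
  rw [hrot w hw] at h3
  exact lt_of_lt_of_le h2 h3

/-- The measure-theoretic part. -/
lemma support_disk {μ : Measure ℂ} (hprob : IsProbabilityMeasure μ)
    (hrot : ∀ w : ℂ, ‖w‖ = 1 → μ.map (fun z => w * z) = μ) {R : ℝ} (hR : 0 ≤ R)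
    (hfull : ∀ s : ℝ, 0 < s → R ≤ s → μ {z : ℂ | ‖z‖ ≤ s} = 1)
    (hinc : ∀ s s' : ℝ, 0 < s → s < s' → s' < R → μ {z : ℂ | ‖z‖ ≤ s} < μ {z : ℂ | ‖z‖ ≤ s'}) :
    μ.support = Metric.closedBall 0 R := by
  have hcl : ∀ s : ℝ, IsClosed {z : ℂ | ‖z‖ ≤ s} := fun s =>
    isClosed_le continuous_norm continuous_const
  have hsub : μ.support ⊆ Metric.closedBall 0 R := by
    intro z hz
    rw [mem_closedBall_zero_iff]
    refine le_of_forall_gt_imp_ge_of_dense fun s hs => ?_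
    have hs0 : 0 < s := lt_of_le_of_lt hR hs
    have h1 : {z : ℂ | ‖z‖ ≤ s} ∈ ae μ := by
      rw [mem_ae_iff, prob_compl_eq_zero_iff (hcl s).measurableSet]
      exact hfull s hs0 hs.le
    exact Measure.support_subset_of_isClosed (hcl s) h1 hz
  refine Set.Subset.antisymm hsub ?_
  rcases hR.lt_or_eq with hRp | hR0
  · intro z hz
    rw [mem_closedBall_zero_iff] at hz
    obtain ⟨w, hw, hzw⟩ : ∃ w : ℂ, ‖w‖ = 1 ∧ z = (‖z‖ : ℂ) * w := by
      by_cases h0 : z = 0
      · exact ⟨1, by simp, by simp [h0]⟩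
      · have h1 : ‖z‖ ≠ 0 := norm_ne_zero_iff.mpr h0
        refine ⟨z / ‖z‖, by simp [h1], ?_⟩
        have h2 : (‖z‖ : ℂ) ≠ 0 := by exact_mod_cast h1
        field_simp
    -- points of the support of modulus in a given interval, on the ray of `w`
    have hray : ∀ s s' : ℝ, 0 < s → s < s' → s' < R →
        ∃ r : ℝ, s < r ∧ r ≤ s' ∧ (r : ℂ) * w ∈ μ.support := by
      intro s s' hs hss hsR
      have h1 := hinc s s' hs hss hsR
      have h2 : 0 < μ ({z : ℂ | ‖z‖ ≤ s'} \ {z : ℂ | ‖z‖ ≤ s}) := by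
        rw [pos_iff_ne_zero]
        intro h0
        have h3 : μ {z : ℂ | ‖z‖ ≤ s'} ≤ μ ({z : ℂ | ‖z‖ ≤ s} ∪
            ({z : ℂ | ‖z‖ ≤ s'} \ {z : ℂ | ‖z‖ ≤ s})) :=
          measure_mono (by
            intro x hx
            by_cases hxs : x ∈ {z : ℂ | ‖z‖ ≤ s}
            · exact Or.inl hxs
            · exact Or.inr ⟨hx, hxs⟩)
        have h4 := h3.trans (measure_union_le _ _)
        rw [h0, add_zero] at h4
        exact absurd h1 (not_lt.mpr h4)
      obtain ⟨x, hx, hxs⟩ := Measure.nonempty_inter_support_of_pos h2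
      obtain ⟨hx1, hx2⟩ := hx
      simp only [Set.mem_setOf_eq, not_le] at hx1 hx2
      refine ⟨‖x‖, hx2, hx1, ?_⟩
      have hxn : ‖x‖ ≠ 0 := (hs.trans hx2).ne'
      have hx0 : x ≠ 0 := norm_ne_zero_iff.mp hxn
      have h5 : ((‖x‖ : ℂ) * w / x) * x ∈ μ.support := by
        refine support_rot hrot ?_ hxs
        rw [norm_div, norm_mul, hw, Complex.norm_real, norm_norm, mul_one, div_self hxn]
      rwa [div_mul_cancel₀ _ hx0] at h5
    have hzc : z ∈ closure μ.support := by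
      rw [Metric.mem_closure_iff]
      intro ε hε
      have h6 : ‖z‖ ∈ closure (Set.Ioo 0 R) := by
        rw [closure_Ioo hRp.ne]
        exact ⟨norm_nonneg z, hz⟩
      obtain ⟨s, ⟨hs0, hsR⟩, hsd⟩ := Metric.mem_closure_iff.mp h6 (ε / 2) (half_pos hε)
      obtain ⟨r, hr1, hr2, hr3⟩ := hray s (min ((s + R) / 2) (s + ε / 2)) hs0
        (lt_min (by linarith) (by linarith)) (lt_of_le_of_lt (min_le_left _ _) (by linarith))
      refine ⟨(r : ℂ) * w, hr3, ?_⟩
      have h7 : r ≤ s + ε / 2 := hr2.trans (min_le_right _ _)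
      rw [Real.dist_eq] at hsd
      rw [hzw, dist_eq_norm]
      have h8 : ((‖((‖z‖ : ℂ) * w)‖ : ℝ) : ℂ) = (‖z‖ : ℂ) := by
        rw [norm_mul, hw, Complex.norm_real, norm_norm, mul_one]
      have h9 : (‖z‖ : ℂ) * w - (r : ℂ) * w = ((‖z‖ - r : ℝ) : ℂ) * w := by
        push_cast
        ring
      rw [h9, norm_mul, hw, mul_one, Complex.norm_real, Real.norm_eq_abs]
      rw [abs_lt] at hsd ⊢
      constructor <;> linarith [hsd.1, hsd.2]
    rwa [Measure.isClosed_support.closure_eq] at hzc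
  · rw [← hR0, Metric.closedBall_zero]
    obtain ⟨x, hx⟩ := Measure.nonempty_support (μ := μ) (IsProbabilityMeasure.ne_zero μ)
    have h1 := hsub hx
    rw [← hR0, Metric.closedBall_zero, Set.mem_singleton_iff] at h1
    intro y hy
    rw [Set.mem_singleton_iff] at hy
    rw [hy, ← h1]
    exact hx

/-- For every `n ≥ 1` and every irreducible nonnegative `σ` for which the deterministic
equivalent `μ` is defined, the support of `μ` is the closed disk of radius `√ρ(V)` about the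
origin; in particular it is connected. -/
theorem result {n : ℕ} (hn : 1 ≤ n) (σ : Matrix (Fin n) (Fin n) ℝ) (_hσ : ∀ i j, 0 ≤ σ i j)
    (hirr : ∀ i j, Relation.ReflTransGen (fun k l => 0 < σ k l) i j)
    (μ : Measure ℂ) (hμ : IsDetEquiv σ μ) :
    μ.support = Metric.closedBall 0 (√(specRad (prof σ))) ∧ IsConnected μ.support := by
  obtain ⟨hprob, hrot, q, q', ⟨hM, hnz, hz⟩, hF⟩ := hμ
  have hn' : (0 : ℝ) < n := by exact_mod_cast hn
  have hV : ∀ i j, 0 ≤ prof σ i j := fun i j =>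
    mul_nonneg (one_div_pos.mpr hn').le (sq_nonneg _)
  have hmain : μ.support = Metric.closedBall 0 (√(specRad (prof σ))) := by
    refine support_disk hprob hrot (Real.sqrt_nonneg _) ?_ ?_
    · intro s hs hsR
      have h0 := hz s hs hsR
      have h1 : cdf (prof σ) q q' s = 1 := by
        unfold cdf
        rw [h0.1]
        simp
      have h2 := hF s hs
      rw [h1] at h2
      exact (ENNReal.toReal_eq_one_iff _).mp h2
    · intro s s' hs hss hsR
      have hs' : 0 < s' := hs.trans hss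
      have S1 := sol_pos hn hirr hs (hM s hs) (hnz s hs (hss.trans hsR))
      have S2 := sol_pos hn hirr hs' (hM s' hs') (hnz s' hs' hsR)
      have h2 := strict_mono hn hV (pow_pos hs 2) (pow_lt_pow_left₀ hss hs.le two_ne_zero) S1 S2
      have h3 : cdf (prof σ) q q' s < cdf (prof σ) q q' s' := by
        unfold cdf
        have h4 : q s' ⬝ᵥ (prof σ *ᵥ q' s') < q s ⬝ᵥ (prof σ *ᵥ q' s) := h2
        have h5 := mul_lt_mul_of_pos_left h4 (one_div_pos.mpr hn')
        linarith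
      rw [← hF s hs, ← hF s' hs'] at h3
      exact (ENNReal.toReal_lt_toReal (measure_ne_top _ _) (measure_ne_top _ _)).mp h3
  refine ⟨hmain, ?_⟩
  rw [hmain]
  exact (convex_closedBall (0 : ℂ) _).isConnected
    (Metric.nonempty_closedBall.mpr (Real.sqrt_nonneg _))

end Run7.h800.VP
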